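import Pool.Agent.K3h46.HP.Main2
import Pool.Agent.K3h27.HP.Conv

/-! Alternating powers of correspondences and decompositions of the diagonal. The proof of
`altPower_comp` is that of helper27 for `symPower`. -/

set_option autoImplicit false

open Finset Pool.Agent.K3h46.HP

namespace Pool.Agent.K3h46.HP

/-- The sum over the permutations `σ` of `N` letters, with the sign of `σ` as coefficient, of the
product over `i` of the pullbacks of `w` to the factors `i` and `N + σ i` of `X^(2N)`. If `w` is a
projector, this is `N!` times the projector which defines the exterior power `Λ^N (X, w)`. -/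
def Powers.altPower (X : Powers) (w : X.A 2) (N : ℕ) : X.A (N + N) :=
  ∑ σ : Equiv.Perm (Fin N), ((Equiv.Perm.sign σ : ℤ) : ℚ) •
    ∏ i : Fin N, X.edge w (Fin.castAdd N i) (Fin.natAdd N (σ i))

open Pool.Agent.K3h27.HP in
/-- the convolution commutes with multiples -/
theorem conv_smul (X : Powers) (b : X.A 2) {n : ℕ} (j : Fin n) (r : ℚ) (x : X.A n) :
    conv X b j (r • x) = r • conv X b j x := by
  unfold conv
  rw [map_smul, smul_mul_assoc, map_smul]

/-- the intermediate sums -/
def T (X : Powers) (a c : X.A 2) (N k : ℕ) : X.A (N + N) :=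
  ∑ σ : Equiv.Perm (Fin N), ((Equiv.Perm.sign σ : ℤ) : ℚ) • ∏ i : Fin N,
    X.edge (if (σ i : ℕ) < k then c else a) (Fin.castAdd N i) (Fin.natAdd N (σ i))

theorem T_zero (X : Powers) (a c : X.A 2) (N : ℕ) : T X a c N 0 = X.altPower a N := by
  unfold T Powers.altPower
  simp

theorem T_top (X : Powers) (a c : X.A 2) (N : ℕ) : T X a c N N = X.altPower c N := by
  unfold T Powers.altPower
  simp

open Pool.Agent.K3h27.HP in
theorem T_succ (X : Powers) (a b : X.A 2) (N : ℕ) (k : Fin N) :
    conv X b (Fin.natAdd N k) (T X a (X.comp a b) N k) = T X a (X.comp a b) N (k + 1) := by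
  unfold T
  rw [conv_sum]
  apply Finset.sum_congr rfl
  intro σ _
  rw [conv_smul]
  congr 1
  have hk : σ (σ.symm k) = k := σ.apply_symm_apply k
  have hne : ∀ i ∈ Finset.univ.erase (σ.symm k), σ i ≠ k := by
    intro i hi h
    rw [Finset.mem_erase] at hi
    exact hi.1 (by rw [← h, Equiv.symm_apply_apply])
  rw [← Finset.prod_erase_mul _ _ (Finset.mem_univ (σ.symm k)),
    ← Finset.prod_erase_mul (a := σ.symm k) (f := fun i : Fin N => X.edge
      (if (σ i : ℕ) < (k : ℕ) + 1 then X.comp a b else a) (Fin.castAdd N i)
      (Fin.natAdd N (σ i))) _ (Finset.mem_univ _)]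
  rw [hk, if_neg (lt_irrefl _), if_pos (Nat.lt_succ_self _), conv_edge]
  · congr 1
    apply Finset.prod_congr rfl
    intro i hi
    have h1 := hne i hi
    have h2 : (σ i : ℕ) ≠ k := fun h => h1 (Fin.ext h)
    have h3 : ((σ i : ℕ) < k) ↔ ((σ i : ℕ) < (k : ℕ) + 1) := by omega
    by_cases h4 : (σ i : ℕ) < k
    · rw [if_pos h4, if_pos (h3.1 h4)]
    · rw [if_neg h4, if_neg (fun h => h4 (h3.2 h))]
  · intro h
    have := congrArg Fin.val h
    simp only [Fin.val_castAdd, Fin.val_natAdd] at this
    have := (σ.symm k).isLt
    omega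
  · rw [map_prod, map_prod]
    apply Finset.prod_congr rfl
    intro i hi
    rw [pull_edge, pull_edge, tau_ne, tau_ne]
    · intro h
      apply hne i hi
      have := congrArg Fin.val h
      simp only [Fin.val_natAdd] at this
      exact Fin.ext (by omega)
    · intro h
      have := congrArg Fin.val h
      simp only [Fin.val_castAdd, Fin.val_natAdd] at this
      have := i.isLt
      omega

open Pool.Agent.K3h27.HP in
/-- exterior powers of a composition -/
theorem altPower_comp (X : Powers) (a b : X.A 2) (N : ℕ) (h : X.altPower a N = 0) :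
    X.altPower (X.comp a b) N = 0 := by
  have key : ∀ k : ℕ, k ≤ N → T X a (X.comp a b) N k = 0 := by
    intro k
    induction k with
    | zero => intro _; rw [T_zero, h]
    | succ k ih =>
      intro hk
      have := T_succ X a b N ⟨k, hk⟩
      rw [← this]
      simp only
      rw [ih (by omega), conv_zero]
  rw [← T_top X a (X.comp a b) N]
  exact key N le_rfl

/-- the class of the diagonal: a unit for the composition of correspondences -/
def IsDiagonal (X : Powers) (D : X.A 2) : Prop := ∀ x : X.A 2, X.comp D x = x ∧ X.comp x D = x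

theorem comp_sub (X : Powers) (a b c : X.A 2) : X.comp a (b - c) = X.comp a b - X.comp a c := by
  unfold Powers.comp
  rw [map_sub, mul_sub, map_sub]

theorem sub_comp (X : Powers) (a b c : X.A 2) : X.comp (a - b) c = X.comp a c - X.comp b c := by
  unfold Powers.comp
  rw [map_sub, sub_mul, map_sub]

/-- the sum `D + β + ... + β^j` -/
def geom (X : Powers) (D b : X.A 2) : ℕ → X.A 2
  | 0 => D
  | j + 1 => geom X D b j + X.iter b j

theorem comp_geom (X : Powers) (hA : StmAssoc) (hF : X.Fubini) {D : X.A 2} (hD : IsDiagonal X D)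
    (b : X.A 2) (j : ℕ) : X.comp (D - b) (geom X D b j) = D - X.iter b j := by
  induction j with
  | zero =>
    show X.comp (D - b) D = D - b
    exact (hD _).2
  | succ j ih =>
    show X.comp (D - b) (geom X D b j + X.iter b j) = _
    have h1 := iter_comp X hA hF b 0 j
    rw [zero_add] at h1
    have h2 : X.comp b (X.iter b j) = X.iter b (j + 1) := h1
    rw [comp_add, ih, sub_comp, (hD _).1, h2]
    abel

/-- the complement of the projector is `D - β` composed with something -/
theorem complement (X : Powers) (hA : StmAssoc) (hF : X.Fubini) {D : X.A 2}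
    (hD : IsDiagonal X D) {b p : X.A 2} {a : ℕ} (h : X.comp (X.iter b a) p = X.iter b a) :
    D - p = X.comp (D - b) (X.comp (geom X D b a) (D - p)) := by
  rw [← hA X hF, comp_geom X hA hF hD, sub_comp, (hD _).1, comp_sub, (hD _).2, h]
  abel

end Pool.Agent.K3h46.HP
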