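import Pool.Agent.K3h46.HP.Stm3

/-! Linear combinations of matching products and their exterior powers. -/

set_option autoImplicit false

open Finset

namespace Pool.Agent.K3h46.HP

/-- The linear combination with coefficients `c e` of the products of the pullbacks of `w` to the
factors `e (i, 0)`, `e (i, 1)` of `X^(2k)`, `i < k`, where `e` runs through the numberings of the
factors by the pairs `(i, 0)`, `(i, 1)`. -/
def Powers.comb (X : Powers) (w : X.A 2) (k : ℕ) (c : (Fin k × Fin 2 ≃ Fin (k * 2)) → ℚ) :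
    X.A (k * 2) :=
  ∑ e : Fin k × Fin 2 ≃ Fin (k * 2), c e • ∏ i : Fin k, X.edge w (e (i, 0)) (e (i, 1))

theorem selfPower_eq_comb (X : Powers) (w : X.A 2) (k : ℕ) :
    X.selfPower w k = X.comb w k (fun _ => 1) := by
  unfold Powers.selfPower Powers.comb
  simp

/-- the equivalence of the positions given by a family -/
def posEquiv {m k : ℕ} (ε : Fin m → (Fin k × Fin 2 ≃ Fin (k * 2))) :
    Fin (m * k) × Fin 2 ≃ Fin (m * (k * 2)) :=
  (Equiv.prodCongr finProdFinEquiv.symm (Equiv.refl (Fin 2))).trans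
    ((Equiv.prodAssoc (Fin m) (Fin k) (Fin 2)).trans
      ((Equiv.prodShear (Equiv.refl (Fin m)) ε).trans finProdFinEquiv))

theorem posEquiv_apply {m k : ℕ} (ε : Fin m → (Fin k × Fin 2 ≃ Fin (k * 2))) (j : Fin m)
    (i : Fin k) (s : Fin 2) :
    posEquiv ε (finProdFinEquiv (j, i), s) = finProdFinEquiv (j, ε j (i, s)) := by
  simp [posEquiv]

theorem comb_extPower (X : Powers) (w : X.A 2) (k : ℕ) (c : (Fin k × Fin 2 ≃ Fin (k * 2)) → ℚ)
    (hc : ∑ e, c e ≠ 0) (m : ℕ) (h : X.extPower (X.comb w k c) m = 0) :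
    X.selfPower w (m * k) = 0 := by
  have h1 : ∀ G : Fin (m * (k * 2)) ≃ Fin (m * k * 2),
      (0 : X.A (m * k * 2)) = ∑ ε : Fin m → (Fin k × Fin 2 ≃ Fin (k * 2)),
        (∏ j, c (ε j)) • ∏ l : Fin (m * k), X.edge w (G (posEquiv ε (l, 0)))
          (G (posEquiv ε (l, 1))) := by
    intro G
    have h2 := congrArg (X.pull G) h
    rw [map_zero] at h2
    rw [← h2]
    unfold Powers.extPower Powers.comb
    rw [map_prod]
    simp_rw [X.pull_comp, map_sum, map_smul, map_prod, pull_edge]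
    rw [Finset.prod_univ_sum, Fintype.piFinset_univ]
    refine Finset.sum_congr rfl fun ε _ => ?_
    rw [← (finProdFinEquiv (m := m) (n := k)).prod_comp, Fintype.prod_prod_type,
      Finset.prod_smul]
    congr 1
    refine Finset.prod_congr rfl fun j _ => Finset.prod_congr rfl fun i _ => ?_
    rw [posEquiv_apply, posEquiv_apply]
  have h3 : (0 : X.A (m * k * 2)) = ∑ G : Fin (m * (k * 2)) ≃ Fin (m * k * 2),
      ∑ ε : Fin m → (Fin k × Fin 2 ≃ Fin (k * 2)),
        (∏ j, c (ε j)) • ∏ l : Fin (m * k), X.edge w (G (posEquiv ε (l, 0)))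
          (G (posEquiv ε (l, 1))) := by
    rw [← Finset.sum_congr rfl fun G _ => h1 G]
    simp
  rw [Finset.sum_comm] at h3
  have h4 : ∀ ε : Fin m → (Fin k × Fin 2 ≃ Fin (k * 2)),
      ∑ G : Fin (m * (k * 2)) ≃ Fin (m * k * 2),
        (∏ j, c (ε j)) • ∏ l : Fin (m * k), X.edge w (G (posEquiv ε (l, 0)))
          (G (posEquiv ε (l, 1))) = (∏ j, c (ε j)) • X.selfPower w (m * k) := by
    intro ε
    rw [← Finset.smul_sum]
    congr 1
    unfold Powers.selfPower
    exact Fintype.sum_equiv ⟨fun G => (posEquiv ε).trans G, fun E => (posEquiv ε).symm.trans E,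
      fun G => by ext x; simp, fun E => by ext x; simp⟩ _ _ (fun G => rfl)
  rw [Finset.sum_congr rfl fun ε _ => h4 ε, ← Finset.sum_smul] at h3
  have h5 : ∑ ε : Fin m → (Fin k × Fin 2 ≃ Fin (k * 2)), ∏ j, c (ε j) = (∑ e, c e) ^ m := by
    rw [← Fintype.piFinset_univ, ← Finset.prod_univ_sum]
    simp
  rw [h5] at h3
  exact (smul_eq_zero.1 h3.symm).resolve_left (pow_ne_zero _ hc)

end Pool.Agent.K3h46.HP
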