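import Pool.Agent.K3h46.HP.Stm3

/-! Symmetric powers, self powers, and the first power of the variety which decides: assembly. -/

set_option autoImplicit false

open Finset

namespace Pool.Agent.K3h46.HP

variable (X : Powers)

theorem symPower_zero (w : X.A 2) : X.symPower w 0 = 1 := by
  unfold Powers.symPower
  simp

theorem selfPower_zero (w : X.A 2) : X.selfPower w 0 = 1 := by
  unfold Powers.selfPower
  haveI : Subsingleton (Fin 0 × Fin 2 ≃ Fin (0 * 2)) := ⟨fun a b => by ext x; exact x.1.elim0⟩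
  haveI : Inhabited (Fin 0 × Fin 2 ≃ Fin (0 * 2)) := ⟨finProdFinEquiv⟩
  haveI : Unique (Fin 0 × Fin 2 ≃ Fin (0 * 2)) := ⟨inferInstance, fun a => Subsingleton.elim _ _⟩
  rw [Fintype.sum_unique]
  simp

/-- all rings are zero if the ring of the point is -/
theorem eq_zero_of_zero (h : (1 : X.A 0) = 0) {n : ℕ} (x : X.A n) : x = 0 := by
  have h1 : (1 : X.A n) = 0 := by
    have h2 := congrArg (X.pull (Fin.elim0 : Fin 0 → Fin n)) h
    rwa [map_one, map_zero] at h2
  rw [← mul_one x, h1, mul_zero]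

/-- from `N` down to `2 n + 1` -/
theorem symPower_down (hP : StmPTR) {w : X.A 2} {n : ℕ} (hw : X.IsProjector w (-(2 * n : ℕ)))
    (N : ℕ) (h : X.symPower w N = 0) : X.symPower w (2 * n + 1) = 0 := by
  have step : ∀ M : ℕ, M ≠ 2 * n → X.symPower w (M + 1) = 0 → X.symPower w M = 0 := by
    intro M hM h1
    have h2 := hP X w _ hw M
    rw [h1, map_zero, map_zero] at h2
    refine (smul_eq_zero.1 h2.symm).resolve_left ?_
    intro h3
    apply hM
    have h4 : (M : ℚ) = ((2 * n : ℕ) : ℚ) := by linarith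
    exact_mod_cast h4
  rcases le_or_gt (2 * n + 1) N with h1 | h1
  · obtain ⟨j, rfl⟩ := Nat.exists_eq_add_of_le h1
    clear h1
    induction j with
    | zero => exact h
    | succ j ih => exact ih (step _ (by omega) h)
  · have h2 : ∀ M : ℕ, M ≤ 2 * n → X.symPower w M = 0 → X.symPower w 0 = 0 := by
      intro M
      induction M with
      | zero => exact fun _ h => h
      | succ M ih => exact fun h3 h4 => ih (by omega) (step M (by omega) h4)
    have h5 := h2 N (by omega) h
    rw [symPower_zero] at h5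
    exact eq_zero_of_zero X h5 _

theorem selfPower_step (hT : StmHTR) {w : X.A 2} {n : ℕ} (hw : X.IsProjector w (-(2 * n : ℕ)))
    (k : ℕ) (hk : k ≠ n) (h : X.selfPower w (k + 1) = 0) : X.selfPower w k = 0 := by
  have h2 := hT X w _ hw k
  rw [h, map_zero, map_zero] at h2
  refine (smul_eq_zero.1 h2.symm).resolve_left ?_
  intro h3
  rcases mul_eq_zero.1 h3 with h4 | h4
  · have : (0 : ℚ) < 2 * ((k : ℚ) + 1) := by positivity
    exact absurd h4 this.ne'
  · apply hk
    have h5 : (k : ℚ) = (n : ℚ) := by push_cast at h4; linarith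
    exact_mod_cast h5

theorem selfPower_ne (hT : StmHTR) {w : X.A 2} {n : ℕ} (hw : X.IsProjector w (-(2 * n : ℕ)))
    (k : ℕ) (hk : k ≤ n) (h : X.selfPower w k = 0) : (1 : X.A 0) = 0 := by
  induction k with
  | zero => rwa [selfPower_zero] at h
  | succ k ih => exact ih (by omega) (selfPower_step X hT hw k (by omega) h)

/-- from `k` to `n + 1` -/
theorem selfPower_down (hT : StmHTR) {w : X.A 2} {n : ℕ} (hw : X.IsProjector w (-(2 * n : ℕ)))
    (k : ℕ) (h : X.selfPower w k = 0) : X.selfPower w (n + 1) = 0 := by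
  rcases le_or_gt (n + 1) k with h1 | h1
  · obtain ⟨j, rfl⟩ := Nat.exists_eq_add_of_le h1
    clear h1
    induction j with
    | zero => exact h
    | succ j ih => exact ih (selfPower_step X hT hw _ (by omega) h)
  · exact eq_zero_of_zero X (selfPower_ne X hT hw k (by omega) h) _

/-- the equivalences -/
theorem tfae (hN : StmNil) (hH : StmPH) (hP : StmPTR) (hT : StmHTR) {w : X.A 2} {n : ℕ}
    (hw : X.IsProjector w (-(2 * n : ℕ))) :
    ((∃ k, X.selfPower w k = 0) ↔ X.symPower w (2 * n + 1) = 0) ∧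
    ((∃ N, X.symPower w N = 0) ↔ X.symPower w (2 * n + 1) = 0) ∧
    (X.selfPower w (n + 1) = 0 ↔ X.symPower w (2 * n + 1) = 0) := by
  have a1 : (∃ k, X.selfPower w k = 0) → X.symPower w (2 * n + 1) = 0 := fun ⟨k, hk⟩ =>
    symPower_down X hP hw (3 * k) (hN X w hw.symm k hk (3 * k) (by omega))
  have a2 : X.symPower w (2 * n + 1) = 0 → X.selfPower w (2 * n + 1) = 0 := hH X w _
  exact ⟨⟨a1, fun h => ⟨_, a2 h⟩⟩, ⟨fun ⟨N, h⟩ => symPower_down X hP hw N h, fun h => ⟨_, h⟩⟩,
    ⟨fun h => a1 ⟨_, h⟩, fun h => selfPower_down X hT hw _ (a2 h)⟩⟩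

/-! ### transformations -/

variable {X} {H : Powers} (c : Powers.Hom X H)

theorem map_edge (w : X.A 2) {n : ℕ} (i j : Fin n) :
    c.map n (X.edge w i j) = H.edge (c.map 2 w) i j := c.map_pull _ _

theorem map_selfPower (w : X.A 2) (k : ℕ) :
    c.map (k * 2) (X.selfPower w k) = H.selfPower (c.map 2 w) k := by
  unfold Powers.selfPower
  rw [map_sum]
  refine Finset.sum_congr rfl fun e _ => ?_
  rw [map_prod]
  exact Finset.prod_congr rfl fun i _ => map_edge c w _ _

theorem map_projector {w : X.A 2} {t : ℚ} (hw : X.IsProjector w t) :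
    H.IsProjector (c.map 2 w) t where
  symm := by rw [← c.map_pull, hw.symm]
  idem := by rw [← c.map_pull, ← c.map_pull, ← map_mul, ← c.map_push, hw.idem]
  trace := by rw [← c.map_pull, ← c.map_push, hw.trace, AlgHom.commutes]

theorem selfPower_mem (w : X.A 2) (k : ℕ) :
    X.selfPower w k ∈ Algebra.adjoin ℚ
      (Set.range fun p : Fin (k * 2) × Fin (k * 2) => X.edge w p.1 p.2) := by
  unfold Powers.selfPower
  refine Subalgebra.sum_mem _ fun e _ => Subalgebra.prod_mem _ fun i _ => ?_
  exact Algebra.subset_adjoin ⟨(e (i, 0), e (i, 1)), rfl⟩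

end Pool.Agent.K3h46.HP
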