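import Pool.Agent.K3h46.HP.Stm4
import Pool.Agent.K3h46.HP.Main

/-! Symmetric correspondences with vanishing symmetric powers: assembly. -/

set_option autoImplicit false

open Finset

namespace Pool.Agent.K3h46.HP

variable (X : Powers)

theorem comp_add (a b c : X.A 2) : X.comp a (b + c) = X.comp a b + X.comp a c := by
  unfold Powers.comp
  rw [map_add, mul_add, map_add]

theorem add_comp (a b c : X.A 2) : X.comp (a + b) c = X.comp a c + X.comp b c := by
  unfold Powers.comp
  rw [map_add, add_mul, map_add]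

theorem smul_comp (r : ℚ) (a c : X.A 2) : X.comp (r • a) c = r • X.comp a c := by
  unfold Powers.comp
  rw [map_smul, smul_mul_assoc, map_smul]

theorem comp_smul (r : ℚ) (a c : X.A 2) : X.comp a (r • c) = r • X.comp a c := by
  unfold Powers.comp
  rw [map_smul, mul_smul_comm, map_smul]

theorem iter_comp (hA : StmAssoc) (hF : X.Fubini) (g : X.A 2) (a b : ℕ) :
    X.comp (X.iter g a) (X.iter g b) = X.iter g (a + b + 1) := by
  induction b with
  | zero => rfl
  | succ b ih =>
    show X.comp (X.iter g a) (X.comp (X.iter g b) g) = X.comp (X.iter g (a + b + 1)) g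
    rw [← hA X hF, ih]

theorem iter_symm (hA : StmAssoc) (hT : StmTrans) (hF : X.Fubini) {g : X.A 2}
    (hs : X.pull ![1, 0] g = g) (m : ℕ) : X.pull ![1, 0] (X.iter g m) = X.iter g m := by
  induction m with
  | zero => exact hs
  | succ m ih =>
    show X.pull ![1, 0] (X.comp (X.iter g m) g) = _
    rw [hT, hs, ih]
    have h := iter_comp X hA hF g 0 m
    rw [zero_add] at h
    exact h

/-- `ev g f = g f(g)` -/
noncomputable def ev (g : X.A 2) : Polynomial ℚ →ₗ[ℚ] X.A 2 :=
  Polynomial.lsum fun m => LinearMap.toSpanSingleton ℚ (X.A 2) (X.iter g m)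

theorem ev_monomial (g : X.A 2) (m : ℕ) (r : ℚ) :
    ev X g (Polynomial.monomial m r) = r • X.iter g m := by
  unfold ev
  rw [Polynomial.lsum_apply, Polynomial.sum_monomial_index _ _ (by simp)]
  rfl

theorem ev_mul (hA : StmAssoc) (hF : X.Fubini) (g : X.A 2) (f h : Polynomial ℚ) :
    X.comp (ev X g f) (ev X g h) = ev X g (Polynomial.X * (f * h)) := by
  induction f using Polynomial.induction_on' with
  | add p q hp hq => rw [map_add, add_comp, hp, hq, add_mul, mul_add, map_add]
  | monomial n a =>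
    induction h using Polynomial.induction_on' with
    | add p q hp hq => rw [map_add, comp_add, hp, hq, mul_add, mul_add, map_add]
    | monomial m b =>
      rw [ev_monomial, ev_monomial, smul_comp, comp_smul, iter_comp X hA hF, Polynomial.X,
        Polynomial.monomial_mul_monomial, Polynomial.monomial_mul_monomial, ev_monomial, smul_smul,
        one_mul]
      congr 2
      omega

theorem ev_one (g : X.A 2) : ev X g 1 = g := by
  rw [← Polynomial.monomial_zero_one, ev_monomial, one_smul]
  rfl

theorem ev_symm (hA : StmAssoc) (hT : StmTrans) (hF : X.Fubini) {g : X.A 2}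
    (hs : X.pull ![1, 0] g = g) (f : Polynomial ℚ) : X.pull ![1, 0] (ev X g f) = ev X g f := by
  induction f using Polynomial.induction_on' with
  | add p q hp hq => rw [map_add, map_add, hp, hq]
  | monomial n a => rw [ev_monomial, map_smul, iter_symm X hA hT hF hs]

theorem ev_dvd (hA : StmAssoc) (hF : X.Fubini) {g : X.A 2} {P : Polynomial ℚ}
    (hP : ev X g P = 0) {f : Polynomial ℚ} (h : P ∣ f) : ev X g f = 0 := by
  obtain ⟨q, rfl⟩ := h
  rw [← Polynomial.divX_mul_X_add q, mul_add, map_add, mul_comm q.divX, ← mul_assoc,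
    mul_comm P, mul_assoc, ← ev_mul X hA hF, hP]
  have h1 : X.comp 0 (ev X g q.divX) = 0 := by
    have := smul_comp X 0 0 (ev X g q.divX)
    rwa [zero_smul, zero_smul] at this
  rw [h1, zero_add, mul_comm, Polynomial.C_mul', map_smul, hP, smul_zero]

/-- the projector -/
theorem exists_projector (hA : StmAssoc) (hR : StmRow) (hC : StmConv)
    (hAlg : StmAlg) (hE : StmPolE) (hF : X.Fubini) (hPt : X.PointRing) {g : X.A 2}
    {N : ℕ} (h : X.symPower g (N + 1) = 0) :
    ∃ f : Polynomial ℚ, X.comp (ev X g f) (ev X g f) = ev X g f ∧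
      (∃ a, X.comp (X.iter g a) (ev X g f) = X.iter g a) ∧
      X.symPower (ev X g f) (N + 1) = 0 := by
  obtain ⟨c, hc⟩ := hAlg hR X hPt g (iter_comp X hA hF g) N h
  set P1 : Polynomial ℚ := Polynomial.X ^ N - ∑ m : Fin N, Polynomial.C (c m) * Polynomial.X ^ (m : ℕ)
    with hP1
  have hmon : P1.Monic := by
    apply Polynomial.monic_X_pow_sub
    rw [Polynomial.degree_lt_iff_coeff_zero]
    intro j hj
    rw [Polynomial.finsetSum_coeff]
    refine Finset.sum_eq_zero fun m _ => ?_
    rw [Polynomial.coeff_C_mul_X_pow, if_neg (by have := m.2; omega)]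
  have hev : ev X g P1 = 0 := by
    rw [hP1, map_sub, map_sum, ← Polynomial.monomial_one_right_eq_X_pow, ev_monomial, one_smul, hc,
      sub_eq_zero]
    refine Finset.sum_congr rfl fun m _ => ?_
    rw [Polynomial.C_mul_X_pow_eq_monomial, ev_monomial]
  obtain ⟨E, a, ha, ⟨E1, rfl⟩, h1, h2⟩ := hE (Polynomial.X * P1) (Polynomial.monic_X.mul hmon)
    (dvd_mul_right _ _)
  obtain ⟨a, rfl⟩ := Nat.exists_eq_succ_of_ne_zero ha.ne'
  have h3 : P1 ∣ Polynomial.X * (E1 * E1) - E1 := by
    refine (mul_dvd_mul_iff_left (Polynomial.X_ne_zero (R := ℚ))).1 ?_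
    convert h1 using 1
    ring
  have h4 : P1 ∣ Polynomial.X * (Polynomial.X ^ a * E1) - Polynomial.X ^ a := by
    refine (mul_dvd_mul_iff_left (Polynomial.X_ne_zero (R := ℚ))).1 ?_
    convert h2 using 1
    rw [Nat.succ_eq_add_one]
    ring
  have h5 : ev X g (Polynomial.X * (E1 * E1)) = ev X g E1 := by
    have := ev_dvd X hA hF hev h3
    rwa [map_sub, sub_eq_zero] at this
  have h6 : X.comp (X.iter g a) (ev X g E1) = X.iter g a := by
    have := ev_dvd X hA hF hev h4
    rw [map_sub, sub_eq_zero, ← ev_mul X hA hF, ← Polynomial.monomial_one_right_eq_X_pow,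
      ev_monomial, one_smul] at this
    exact this
  refine ⟨E1, by rw [ev_mul X hA hF, h5], ⟨a, h6⟩, ?_⟩
  have h7 : ev X g E1 = X.comp g (ev X g (E1 * E1)) := by
    have h8 := ev_mul X hA hF g 1 (E1 * E1)
    rw [ev_one, one_mul, h5] at h8
    exact h8.symm
  rw [h7]
  exact hC X g _ _ h

/-! ### traces, transformations -/

theorem ev_eq_sum (g : X.A 2) (f : Polynomial ℚ) :
    ev X g f = ∑ m ∈ Finset.range (f.natDegree + 1), f.coeff m • X.iter g m := by
  conv_lhs => rw [f.as_sum_range]
  rw [map_sum]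
  exact Finset.sum_congr rfl fun m _ => ev_monomial X g m _

theorem comp_eq_of_symm {w : X.A 2} (hs : X.pull ![1, 0] w = w) :
    X.push 2 (X.pull ![0, 2] w * X.pull ![1, 2] w) = X.comp w w := by
  have h := edge_symm X hs (n := 3) 1 2
  unfold Powers.edge at h
  rw [h]
  rfl

theorem tr_ev {g : X.A 2} (h : ∀ m, X.tr (X.iter g m) = 0) (f : Polynomial ℚ) :
    X.tr (ev X g f) = 0 := by
  induction f using Polynomial.induction_on' with
  | add p q hp hq =>
    unfold Powers.tr at hp hq ⊢
    rw [map_add, map_add, map_add, hp, hq, add_zero]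
  | monomial n a =>
    have h1 := h n
    unfold Powers.tr at h1 ⊢
    rw [ev_monomial, map_smul, map_smul, h1, smul_zero]

theorem symPower_one (w : X.A 2) : X.symPower w 1 = w := by
  unfold Powers.symPower
  rw [Fintype.sum_unique]
  simp only [Finset.univ_unique, Finset.prod_singleton]
  have h := X.pull_id 2 w
  have e : (fun i : Fin 2 => i) = ![0, 1] := by
    funext a
    fin_cases a <;> rfl
  rw [e] at h
  exact h

theorem nilpotent_of_traces (hA : StmAssoc) (hT : StmTrans) (hR : StmRow) (hC : StmConv)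
    (hAlg : StmAlg) (hE : StmPolE) (hPtr : StmPTR) (hF : X.Fubini) (hPt : X.PointRing) {g : X.A 2}
    (hs : X.pull ![1, 0] g = g) {N : ℕ} (h : X.symPower g (N + 1) = 0)
    (h0 : ∀ m, X.tr (X.iter g m) = 0) : ∃ a, X.iter g a = 0 := by
  obtain ⟨f, h1, ⟨a, h3⟩, h4⟩ := exists_projector X hA hR hC hAlg hE hF hPt h
  have h2 := ev_symm X hA hT hF hs f
  have hw : X.IsProjector (ev X g f) (-(2 * 0 : ℕ)) := by
    refine ⟨h2, by rw [comp_eq_of_symm X h2, h1], ?_⟩
    have := tr_ev X h0 f
    unfold Powers.tr at this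
    rw [this]
    simp
  have h5 := symPower_down X hPtr hw _ h4
  have h6 : ev X g f = 0 := by
    rw [← symPower_one X (ev X g f)]
    exact h5
  refine ⟨a, ?_⟩
  rw [← h3, h6]
  have := comp_smul X 0 (X.iter g a) 0
  rwa [zero_smul, zero_smul] at this

variable {X} {H : Powers} (c : Powers.Hom X H)

theorem map_comp (a b : X.A 2) : c.map 2 (X.comp a b) = H.comp (c.map 2 a) (c.map 2 b) := by
  unfold Powers.comp
  rw [c.map_push, map_mul, c.map_pull, c.map_pull]

theorem map_iter (g : X.A 2) (m : ℕ) : c.map 2 (X.iter g m) = H.iter (c.map 2 g) m := by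
  induction m with
  | zero => rfl
  | succ m ih =>
    show c.map 2 (X.comp (X.iter g m) g) = H.comp (H.iter (c.map 2 g) m) (c.map 2 g)
    rw [map_comp, ih]

theorem iter_idem {p : H.A 2} (h : H.comp p p = p) (m : ℕ) : H.iter p m = p := by
  induction m with
  | zero => rfl
  | succ m ih =>
    show H.comp (H.iter p m) p = p
    rw [ih, h]

theorem map_tr (a : X.A 2) : c.map 0 (X.tr a) = H.tr (c.map 2 a) := by
  unfold Powers.tr
  rw [c.map_push, c.map_pull]

/-- the projector lifts a projector in the target -/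
theorem map_ev_of_idem {g : X.A 2} {f : Polynomial ℚ} {a : ℕ}
    (h : X.comp (X.iter g a) (ev X g f) = X.iter g a)
    (hc : H.comp (c.map 2 g) (c.map 2 g) = c.map 2 g) : c.map 2 (ev X g f) = c.map 2 g := by
  have h1 : c.map 2 (ev X g f) = (f.sum fun _ r => r) • c.map 2 g := by
    rw [Polynomial.sum_over_range _ (fun _ => rfl), ev_eq_sum, map_sum, Finset.sum_smul]
    refine Finset.sum_congr rfl fun m _ => ?_
    rw [map_smul, map_iter, iter_idem hc]
  have h2 := congrArg (c.map 2) h
  rw [map_comp, map_iter, iter_idem hc, h1, comp_smul, hc] at h2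
  rw [h1, h2]

end Pool.Agent.K3h46.HP
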