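import Pool.Agent.K3h46.HP.Stm2

/-! The permanent is in the ideal of the Hafnians: assembly. -/

set_option autoImplicit false

open Finset MvPolynomial

namespace Pool.Agent.K3h46.HP

theorem sq_apply {n : ℕ} (K : Finset (Fin n)) (u : Fin n) :
    sq K u = if u ∈ K then 1 else 0 := by
  unfold sq
  rw [Finsupp.finsetSum_apply]
  simp [Finsupp.single_apply]

theorem exists_sq_of_le {n : ℕ} {K : Finset (Fin n)} {b : Fin n →₀ ℕ} (h : b ≤ sq K) :
    ∃ L, b = sq L := by
  refine ⟨b.support, ?_⟩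
  ext u
  rw [sq_apply]
  have h1 := h u
  rw [sq_apply] at h1
  by_cases hu : b u = 0
  · rw [if_neg (by simpa using hu)]
    exact hu
  · rw [if_pos (by simpa using hu)]
    split_ifs at h1 <;> omega

/-- the polynomials without squarefree terms -/
noncomputable def noSq (R : Type) [CommRing R] (n : ℕ) : Ideal (MvPolynomial (Fin n) R) where
  carrier := {p | ∀ K : Finset (Fin n), coeff (sq K) p = 0}
  zero_mem' := fun K => by simp
  add_mem' := fun {a b} ha hb K => by
    rw [coeff_add, ha K, hb K, add_zero]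
  smul_mem' := fun q p hp K => by
    rw [smul_eq_mul, coeff_mul]
    apply Finset.sum_eq_zero
    rintro ⟨a, b⟩ hab
    rw [Finset.HasAntidiagonal.mem_antidiagonal] at hab
    obtain ⟨L, hL⟩ := exists_sq_of_le (b := b) (K := K) (by
      rw [← hab]; exact le_add_self)
    show coeff a q * coeff b p = 0
    rw [hL, hp L, mul_zero]

theorem mem_noSq {R : Type} [CommRing R] {n : ℕ} {p : MvPolynomial (Fin n) R} :
    p ∈ noSq R n ↔ ∀ K : Finset (Fin n), coeff (sq K) p = 0 := Iff.rfl

theorem quad_split (X : Powers) {w : X.A 2} (hs : X.pull ![1, 0] w = w) (N : ℕ) :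
    2 * cross X w N = quad X w univ - quad X w (univ.map (Fin.castAddEmb N)) -
      quad X w (univ.map (Fin.natAddEmb N)) := by
  unfold quad cross
  rw [Fin.sum_univ_add]
  simp_rw [Finset.sum_map, Fin.sum_univ_add, Fin.castAddEmb_apply, Fin.natAddEmb_apply]
  rw [Finset.sum_add_distrib, Finset.sum_add_distrib]
  have e : ∑ x : Fin N, ∑ y : Fin N, MvPolynomial.C (X.edge w (Fin.natAdd N x) (Fin.castAdd N y)) *
      (MvPolynomial.X (Fin.natAdd N x) * MvPolynomial.X (Fin.castAdd N y)) =
      ∑ i : Fin N, ∑ j : Fin N, MvPolynomial.C (X.edge w (Fin.castAdd N i) (Fin.natAdd N j)) *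
    (MvPolynomial.X (Fin.castAdd N i) * MvPolynomial.X (Fin.natAdd N j)) := by
    rw [Finset.sum_comm]
    refine Finset.sum_congr rfl fun i _ => Finset.sum_congr rfl fun j _ => ?_
    rw [edge_symm X hs (Fin.natAdd N j), mul_comm (MvPolynomial.X (Fin.natAdd N j))]
  rw [e]
  ring

theorem nil (h1 : StmNil1) (h2 : StmNil2) : StmNil := by
  intro X w hs k hk N hN
  have key : (2 * cross X w N) ^ N ∈ noSq (X.A (N + N)) (N + N) := by
    rw [quad_split X hs]
    have m1 : ∀ S : Finset (Fin (N + N)), quad X w S ^ k ∈ noSq (X.A (N + N)) (N + N) :=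
      fun S K => h1 X w k hk (N + N) S K
    have m2 : ∀ S : Finset (Fin (N + N)), (-quad X w S) ^ k ∈ noSq (X.A (N + N)) (N + N) := by
      intro S
      rw [neg_pow]
      exact Ideal.mul_mem_left _ _ (m1 S)
    rw [sub_eq_add_neg, sub_eq_add_neg]
    rcases Nat.eq_zero_or_pos k with h0 | h0
    · subst h0
      have h3 : (1 : MvPolynomial (Fin (N + N)) (X.A (N + N))) ∈ noSq (X.A (N + N)) (N + N) := by
        simpa using m1 univ
      rw [(Ideal.eq_top_iff_one _).2 h3]
      trivial
    · have h4 : (quad X w univ + -quad X w (univ.map (Fin.castAddEmb N))) ^ (2 * k - 1) ∈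
          noSq (X.A (N + N)) (N + N) :=
        Ideal.add_pow_mem_of_pow_mem_of_le _ (m1 _) (m2 _) (by omega)
      exact Ideal.add_pow_mem_of_pow_mem_of_le _ h4 (m2 _) (by omega)
  have h5 := key univ
  have h6 : (2 * cross X w N) ^ N = MvPolynomial.C ((2 : X.A (N + N)) ^ N) * cross X w N ^ N := by
    rw [mul_pow, map_pow, map_ofNat]
  rw [h6, coeff_C_mul, h2, mul_smul_comm] at h5
  have h7 : (2 : X.A (N + N)) ^ N * X.symPower w N = ((2 : ℚ) ^ N) • X.symPower w N := by
    rw [Algebra.smul_def, map_pow, map_ofNat]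
  rw [h7, smul_smul] at h5
  have h8 : ((N.factorial : ℚ) * 2 ^ N) ≠ 0 :=
    mul_ne_zero (Nat.cast_ne_zero.2 (Nat.factorial_ne_zero N)) (by positivity)
  exact (smul_eq_zero.1 h5).resolve_left h8

end Pool.Agent.K3h46.HP
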