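import Mathlib

/-!
# Chow rings of the powers of a variety: statements

`A n` stands for the Chow ring (or the ring of even cohomology) with rational coefficients of `X^n`.
-/

set_option autoImplicit false

open Finset

namespace Pool.Agent.K3h46.HP

/-- the map `Fin (m + 1) → Fin (n + 1)` which extends `f` by `last ↦ last` -/
def extend {m n : ℕ} (f : Fin m → Fin n) : Fin (m + 1) → Fin (n + 1) :=
  Fin.lastCases (motive := fun _ => Fin (n + 1)) (Fin.last n) (fun i => (f i).castSucc)

/-- The rings `A n` of the powers `X^n` of a smooth projective variety `X`, with the pullback along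
the map `X^n → X^m`, `(x_j) ↦ (x_{f 0}, ..., x_{f (m-1)})`, for each `f : Fin m → Fin n` (these are
all composites of projections, diagonals and permutations) and the push-forward along the projection
`X^(n+1) → X^n` which forgets the last coordinate; functoriality, projection formula, base change. -/
structure Powers where
  A : ℕ → Type
  [ring : ∀ n, CommRing (A n)]
  [alg : ∀ n, Algebra ℚ (A n)]
  pull : ∀ {m n : ℕ}, (Fin m → Fin n) → (A m →ₐ[ℚ] A n)
  pull_id : ∀ (n : ℕ) (x : A n), pull (fun i : Fin n => i) x = x
  pull_comp : ∀ {l m n : ℕ} (f : Fin l → Fin m) (g : Fin m → Fin n) (x : A l),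
    pull g (pull f x) = pull (fun i => g (f i)) x
  push : ∀ n : ℕ, A (n + 1) →ₗ[ℚ] A n
  projection : ∀ (n : ℕ) (x : A n) (y : A (n + 1)),
    push n (pull Fin.castSucc x * y) = x * push n y
  base_change : ∀ {m n : ℕ} (f : Fin m → Fin n) (x : A (m + 1)),
    push n (pull (extend f) x) = pull f (push m x)

attribute [instance] Powers.ring Powers.alg

namespace Powers

variable (X : Powers)

/-- the pullback of a class on `X^2` to `X^n` along the projection to the factors `i` and `j` (along
`x ↦ (x_i, x_i)` if `i = j`) -/
def edge (w : X.A 2) {n : ℕ} (i j : Fin n) : X.A n := X.pull ![i, j] w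

/-- The sum over the permutations `σ` of `N` letters of the product over `i` of the pullbacks of `w`
to the factors `i` and `N + σ i` of `X^(2N)`. If `w` is a projector, this is `N!` times the projector
which defines the symmetric power `Sym^N (X, w)`. -/
def symPower (w : X.A 2) (N : ℕ) : X.A (N + N) :=
  ∑ σ : Equiv.Perm (Fin N), ∏ i : Fin N, X.edge w (Fin.castAdd N i) (Fin.natAdd N (σ i))

/-- The sum over all numberings `e` of the `2 k` factors of `X^(2k)` by the pairs `(i, 0)`, `(i, 1)`,
`i < k`, of the product over `i` of the pullbacks of `w` to the factors `e (i, 0)`, `e (i, 1)`: it is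
`(2k)!` times the symmetrisation of the exterior product `w × ... × w` on `X^(2k)`. -/
def selfPower (w : X.A 2) (k : ℕ) : X.A (k * 2) :=
  ∑ e : Fin k × Fin 2 ≃ Fin (k * 2), ∏ i : Fin k, X.edge w (e (i, 0)) (e (i, 1))

/-- `w` is a symmetric projector: `w` is invariant under the exchange of the two factors, the
composition of the correspondence `w` with itself is `w`, and the degree of the restriction of `w`
to the diagonal is `t`, the trace of `w` on the cohomology (alternating sum). -/
structure IsProjector (w : X.A 2) (t : ℚ) : Prop where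
  symm : X.pull ![1, 0] w = w
  idem : X.push 2 (X.pull ![0, 2] w * X.pull ![1, 2] w) = w
  trace : X.push 0 (X.pull ![0, 0] w) = algebraMap ℚ (X.A 0) t

/-- A transformation which commutes with pullback and push-forward, e.g. the cycle class map from the
Chow rings to the rings of even cohomology. -/
structure Hom (X H : Powers) where
  map : ∀ n : ℕ, X.A n →ₐ[ℚ] H.A n
  map_pull : ∀ {m n : ℕ} (f : Fin m → Fin n) (x : X.A m), map n (X.pull f x) = H.pull f (map m x)
  map_push : ∀ (n : ℕ) (x : X.A (n + 1)), map n (X.push n x) = H.push n (map (n + 1) x)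

end Powers

/-! ### basic facts -/

variable (X : Powers)

theorem pull_edge (w : X.A 2) {m n : ℕ} (f : Fin m → Fin n) (i j : Fin m) :
    X.pull f (X.edge w i j) = X.edge w (f i) (f j) := by
  unfold Powers.edge
  rw [X.pull_comp]
  congr 1
  congr 1
  funext a
  fin_cases a <;> rfl

theorem edge_symm {w : X.A 2} (hs : X.pull ![1, 0] w = w) {n : ℕ} (i j : Fin n) :
    X.edge w i j = X.edge w j i := by
  unfold Powers.edge
  conv_lhs => rw [← hs]
  rw [X.pull_comp]
  congr 1
  congr 1
  funext a
  fin_cases a <;> rfl

/-- the factor between the two glued points is a loop -/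
theorem push_loop {w : X.A 2} {t : ℚ} (h : X.IsProjector w t) {n : ℕ} (x : X.A n) :
    X.push n (X.pull Fin.castSucc x * X.edge w (Fin.last n) (Fin.last n)) = t • x := by
  rw [X.projection]
  have e : X.edge w (Fin.last n) (Fin.last n) =
      X.pull (extend (Fin.elim0 : Fin 0 → Fin n)) (X.pull ![0, 0] w) := by
    unfold Powers.edge
    rw [X.pull_comp]
    congr 1
    congr 1
    funext a
    fin_cases a <;> rfl
  rw [e, X.base_change, h.trace, AlgHom.commutes, Algebra.smul_def, mul_comm]

/-- the two factors at the glued point are composed -/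
theorem push_compose {w : X.A 2} {t : ℚ} (h : X.IsProjector w t) {n : ℕ} (x : X.A n)
    (u v : Fin n) :
    X.push n (X.pull Fin.castSucc x * (X.edge w u.castSucc (Fin.last n) *
      X.edge w v.castSucc (Fin.last n))) = x * X.edge w u v := by
  rw [X.projection]
  congr 1
  have e : X.edge w u.castSucc (Fin.last n) * X.edge w v.castSucc (Fin.last n) =
      X.pull (extend ![u, v]) (X.pull ![0, 2] w * X.pull ![1, 2] w) := by
    unfold Powers.edge
    rw [map_mul, X.pull_comp, X.pull_comp]
    congr 1
    · congr 1
      congr 1
      funext a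
      fin_cases a <;> rfl
    · congr 1
      congr 1
      funext a
      fin_cases a <;> rfl
  rw [e, X.base_change, h.idem]
  rfl

/-- the map which sends the last of the first `N + 1` and the last of the second `N + 1` factors to
the last factor -/
def gluePerm (N : ℕ) : Fin ((N + 1) + (N + 1)) → Fin ((N + N) + 1) :=
  Fin.addCases (motive := fun _ => Fin ((N + N) + 1))
    (Fin.lastCases (motive := fun _ => Fin ((N + N) + 1)) (Fin.last (N + N))
      (fun i => (Fin.castAdd N i).castSucc))
    (Fin.lastCases (motive := fun _ => Fin ((N + N) + 1)) (Fin.last (N + N))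
      (fun j => (Fin.natAdd N j).castSucc))

/-- the map which sends the last two factors to the last factor -/
def glueSelf (k : ℕ) : Fin ((k + 1) * 2) → Fin (k * 2 + 1) :=
  fun j => if h : (j : ℕ) < k * 2 then (⟨j, h⟩ : Fin (k * 2)).castSucc else Fin.last (k * 2)

/-! ### the bricks -/

/-- NIL -/
def StmNil : Prop :=
  ∀ (X : Powers) (w : X.A 2), X.pull ![1, 0] w = w → ∀ k : ℕ, X.selfPower w k = 0 →
    ∀ N : ℕ, 3 * k ≤ N + 2 → X.symPower w N = 0

/-- PH -/
def StmPH : Prop :=
  ∀ (X : Powers) (w : X.A 2) (k : ℕ), X.symPower w k = 0 → X.selfPower w k = 0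

/-- PTR -/
def StmPTR : Prop :=
  ∀ (X : Powers) (w : X.A 2) (t : ℚ), X.IsProjector w t → ∀ N : ℕ,
    X.push (N + N) (X.pull (gluePerm N) (X.symPower w (N + 1))) = (t + N) • X.symPower w N

/-- HTR -/
def StmHTR : Prop :=
  ∀ (X : Powers) (w : X.A 2) (t : ℚ), X.IsProjector w t → ∀ k : ℕ,
    X.push (k * 2) (X.pull (glueSelf k) (X.selfPower w (k + 1))) =
      (2 * (k + 1) * (t + 2 * k)) • X.selfPower w k

end Pool.Agent.K3h46.HP
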