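import Pool.Agent.K3h46.HP.Stm

/-! Two more bricks for the projective variety project `HP`: squarefree parts of polynomials. -/

set_option autoImplicit false

open Finset MvPolynomial

namespace Pool.Agent.K3h46.HP

/-- the squarefree monomial of a set of variables -/
noncomputable def sq {n : ℕ} (K : Finset (Fin n)) : Fin n →₀ ℕ := ∑ u ∈ K, Finsupp.single u 1

/-- the quadratic form `∑_{u, v ∈ S} w_{uv} z_u z_v` -/
noncomputable def quad (X : Powers) (w : X.A 2) {n : ℕ} (S : Finset (Fin n)) :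
    MvPolynomial (Fin n) (X.A n) :=
  ∑ u ∈ S, ∑ v ∈ S, MvPolynomial.C (X.edge w u v) * (MvPolynomial.X u * MvPolynomial.X v)

/-- the mixed part `∑_{i, j} w_{i, N + j} z_i z_{N + j}` -/
noncomputable def cross (X : Powers) (w : X.A 2) (N : ℕ) :
    MvPolynomial (Fin (N + N)) (X.A (N + N)) :=
  ∑ i : Fin N, ∑ j : Fin N, MvPolynomial.C (X.edge w (Fin.castAdd N i) (Fin.natAdd N j)) *
    (MvPolynomial.X (Fin.castAdd N i) * MvPolynomial.X (Fin.natAdd N j))

/-- NIL1 -/
def StmNil1 : Prop :=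
  ∀ (X : Powers) (w : X.A 2) (k : ℕ), X.selfPower w k = 0 →
    ∀ (n : ℕ) (S K : Finset (Fin n)), coeff (sq K) (quad X w S ^ k) = 0

/-- NIL2 -/
def StmNil2 : Prop :=
  ∀ (X : Powers) (w : X.A 2) (N : ℕ),
    coeff (sq univ) (cross X w N ^ N) = (N.factorial : ℚ) • X.symPower w N

end Pool.Agent.K3h46.HP
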