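import Pool.Agent.K3h46.HP.Stm2

/-! Exterior powers of a class. -/

set_option autoImplicit false

open Finset

namespace Pool.Agent.K3h46.HP

/-- The exterior power `z × ... × z` (`m` factors) on `X^(ma)` of a class `z` on `X^a`: the product of
the pullbacks of `z` along the projections to the `m` blocks of `a` factors. -/
def Powers.extPower (X : Powers) {a : ℕ} (z : X.A a) (m : ℕ) : X.A (m * a) :=
  ∏ j : Fin m, X.pull (fun i => finProdFinEquiv (j, i)) z

/-- SM -/
def StmSM : Prop :=
  ∀ (X : Powers) (w : X.A 2) (k m : ℕ), X.extPower (X.selfPower w k) m = 0 →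
    X.selfPower w (m * k) = 0

end Pool.Agent.K3h46.HP
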