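import Pool.Agent.K3h46.HP.Comb

/-! Composition of correspondences: statements (second project on Chow rings of powers). -/

set_option autoImplicit false

open Finset

namespace Pool.Agent.K3h46.HP

namespace Powers

variable (X : Powers)

/-- the composition of two correspondences `a`, `b` on `X × X`: the push-forward along the middle
factor of the product of the pullbacks -/
def comp (a b : X.A 2) : X.A 2 := X.push 2 (X.pull ![0, 2] a * X.pull ![2, 1] b)

/-- `iter g m` is the power `g^(m+1)` of `g` for the composition of correspondences -/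
def iter (g : X.A 2) : ℕ → X.A 2
  | 0 => g
  | m + 1 => X.comp (iter g m) g

/-- the degree of the restriction to the diagonal -/
def tr (a : X.A 2) : X.A 0 := X.push 0 (X.pull ![0, 0] a)

/-- the order of two push-forwards does not matter -/
def Fubini : Prop :=
  ∀ (n : ℕ) (x : X.A (n + 2)),
    X.push n (X.push (n + 1)
      (X.pull (Equiv.swap (Fin.last (n + 1)) (Fin.last n).castSucc) x)) =
      X.push n (X.push (n + 1) x)

/-- the ring of the point consists of the rational numbers -/
def PointRing : Prop := ∀ x : X.A 0, ∃ q : ℚ, x = algebraMap ℚ (X.A 0) q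

/-- the permanent with different classes in the rows -/
def rowPer {N : ℕ} (a : Fin N → X.A 2) : X.A (N + N) :=
  ∑ σ : Equiv.Perm (Fin N), ∏ i : Fin N, X.edge (a i) (Fin.castAdd N i) (Fin.natAdd N (σ i))

end Powers

/-- ASSOC -/
def StmAssoc : Prop :=
  ∀ X : Powers, X.Fubini → ∀ a b c : X.A 2, X.comp (X.comp a b) c = X.comp a (X.comp b c)

/-- TRANS -/
def StmTrans : Prop :=
  ∀ (X : Powers) (a b : X.A 2),
    X.pull ![1, 0] (X.comp a b) = X.comp (X.pull ![1, 0] b) (X.pull ![1, 0] a)

/-- ROW -/
def StmRow : Prop :=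
  ∀ (X : Powers) (N : ℕ) (a : Fin (N + 1) → X.A 2),
    X.push (N + N) (X.pull (gluePerm N) (X.rowPer a)) =
      X.pull (Fin.elim0 : Fin 0 → Fin (N + N)) (X.tr (a (Fin.last N))) *
        X.rowPer (fun i : Fin N => a i.castSucc) +
      ∑ u : Fin N, X.rowPer (Function.update (fun i : Fin N => a i.castSucc) u
        (X.comp (a u.castSucc) (a (Fin.last N))))

/-- CONV -/
def StmConv : Prop :=
  ∀ (X : Powers) (a b : X.A 2) (N : ℕ), X.symPower a N = 0 → X.symPower (X.comp a b) N = 0

/-- ALG -/
def StmAlg : Prop :=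
  StmRow → ∀ X : Powers, X.PointRing → ∀ g : X.A 2,
    (∀ a b : ℕ, X.comp (X.iter g a) (X.iter g b) = X.iter g (a + b + 1)) →
      ∀ N : ℕ, X.symPower g (N + 1) = 0 →
        ∃ c : Fin N → ℚ, X.iter g N = ∑ m : Fin N, c m • X.iter g m

/-- POLE -/
def StmPolE : Prop :=
  ∀ P : Polynomial ℚ, P.Monic → Polynomial.X ∣ P →
    ∃ (E : Polynomial ℚ) (a : ℕ), 0 < a ∧ Polynomial.X ∣ E ∧ P ∣ E * E - E ∧
      P ∣ Polynomial.X ^ a * E - Polynomial.X ^ a

end Pool.Agent.K3h46.HP
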