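import Pool.Agent.K3h46.HP.Alt

/-! Powers of sums of correspondences: statements. -/

set_option autoImplicit false

open Finset

namespace Pool.Agent.K3h46.HP

/-- ADDALT -/
def StmAddAlt : Prop :=
  ∀ (X : Powers) (a b : X.A 2) (M N : ℕ), X.altPower a M = 0 → X.altPower b N = 0 →
    X.altPower (a + b) (M + N) = 0

/-- ADDSYM -/
def StmAddSym : Prop :=
  ∀ (X : Powers) (a b : X.A 2) (M N : ℕ), X.symPower a M = 0 → X.symPower b N = 0 →
    X.symPower (a + b) (M + N) = 0

/-- TRP -/
def StmTrp : Prop :=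
  ∀ (X : Powers) (a : X.A 2) (N : ℕ),
    (X.altPower a N = 0 → X.altPower (X.pull ![1, 0] a) N = 0) ∧
      (X.symPower a N = 0 → X.symPower (X.pull ![1, 0] a) N = 0)

end Pool.Agent.K3h46.HP
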