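import Mathlib

/-! Endomorphism algebras of the tensor powers of an object: statements. -/

set_option autoImplicit false

open Finset

namespace Pool.Agent.K3h46.NC

/-- The endomorphism algebras `H n` of the tensor powers `M ⊗ ... ⊗ M` (`n` factors) of an object `M`
of a `ℚ`-linear rigid symmetric monoidal category with `End(1) = ℚ`: permutations of the factors; the
maps `emb f` which place an endomorphism of `m` factors at the places `f 0, ..., f (m - 1)` of `n`
factors (identity at the other places); the partial trace over the last factor; the trace. -/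
structure TensorPowers where
  H : ℕ → Type
  [ring : ∀ n, Ring (H n)]
  [alg : ∀ n, Algebra ℚ (H n)]
  perm : ∀ n : ℕ, Equiv.Perm (Fin n) →* H n
  emb : ∀ {m n : ℕ}, (Fin m ↪ Fin n) → (H m →ₐ[ℚ] H n)
  emb_refl : ∀ (n : ℕ) (x : H n), emb (Function.Embedding.refl (Fin n)) x = x
  emb_trans : ∀ {l m n : ℕ} (f : Fin l ↪ Fin m) (g : Fin m ↪ Fin n) (x : H l),
    emb g (emb f x) = emb (f.trans g) x
  emb_perm : ∀ {m n : ℕ} (f : Fin m ↪ Fin n) (τ : Equiv.Perm (Fin m)),
    emb f (perm m τ) = perm n (τ.viaFintypeEmbedding f)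
  perm_emb : ∀ {m n : ℕ} (σ : Equiv.Perm (Fin n)) (f : Fin m ↪ Fin n) (x : H m),
    perm n σ * emb f x = emb (f.trans σ.toEmbedding) x * perm n σ
  comm : ∀ {l m n : ℕ} (f : Fin l ↪ Fin n) (g : Fin m ↪ Fin n), (∀ i j, f i ≠ g j) →
    ∀ (x : H l) (y : H m), emb f x * emb g y = emb g y * emb f x
  ptr : ∀ n : ℕ, H (n + 1) →ₗ[ℚ] H n
  ptr_left : ∀ (n : ℕ) (x : H n) (y : H (n + 1)),
    ptr n (emb Fin.castSuccEmb x * y) = x * ptr n y
  ptr_right : ∀ (n : ℕ) (x : H n) (y : H (n + 1)),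
    ptr n (y * emb Fin.castSuccEmb x) = ptr n y * x
  tr : H 1 →ₗ[ℚ] ℚ
  ptr_last : ∀ (n : ℕ) (f : Fin 1 ↪ Fin (n + 1)) (a : H 1), f 0 = Fin.last n →
    ptr n (emb f a) = algebraMap ℚ (H n) (tr a)
  ptr_swap : ∀ (n : ℕ) (u : Fin n),
    ptr n (perm (n + 1) (Equiv.swap u.castSucc (Fin.last n))) = 1

attribute [instance] TensorPowers.ring TensorPowers.alg

/-- the embedding with value `i` -/
def single {n : ℕ} (i : Fin n) : Fin 1 ↪ Fin n := ⟨fun _ => i, fun _ _ _ => Subsingleton.elim _ _⟩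

namespace TensorPowers

variable (M : TensorPowers)

/-- the endomorphism `a_0 ⊗ a_1 ⊗ ... ⊗ a_(n-1)` -/
def rows {n : ℕ} (a : Fin n → M.H 1) : M.H n :=
  (List.ofFn fun i : Fin n => M.emb (single i) (a i)).prod

/-- the sum of the permutations, composed with `a_0 ⊗ ... ⊗ a_(n-1)` -/
def rowPer {n : ℕ} (a : Fin n → M.H 1) : M.H n :=
  (∑ σ : Equiv.Perm (Fin n), M.perm n σ) * M.rows a

/-- `N!` times the endomorphism `Sym^N(a)` of `Sym^N M`, as an endomorphism of the tensor power -/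
def sym (a : M.H 1) (N : ℕ) : M.H N :=
  (∑ σ : Equiv.Perm (Fin N), M.perm N σ) * M.rows (fun _ : Fin N => a)

/-- `N!` times the endomorphism `Λ^N(a)` of `Λ^N M`, as an endomorphism of the tensor power -/
def alt (a : M.H 1) (N : ℕ) : M.H N :=
  (∑ σ : Equiv.Perm (Fin N), ((Equiv.Perm.sign σ : ℤ) : ℚ) • M.perm N σ) *
    M.rows (fun _ : Fin N => a)

end TensorPowers

/-- ROWS -/
def StmRows : Prop :=
  ∀ M : TensorPowers,
    (∀ (n : ℕ) (a b : Fin n → M.H 1), M.rows a * M.rows b = M.rows (fun i => a i * b i)) ∧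
    (∀ (n : ℕ) (a : Fin n → M.H 1) (u : Fin n) (c : M.H 1),
      M.emb (single u) c * M.rows a = M.rows (Function.update a u (c * a u))) ∧
    (∀ (n : ℕ) (a : Fin (n + 1) → M.H 1), M.rows a =
      M.emb Fin.castSuccEmb (M.rows (fun i : Fin n => a i.castSucc)) *
        M.emb (single (Fin.last n)) (a (Fin.last n))) ∧
    (∀ (n : ℕ) (σ : Equiv.Perm (Fin n)) (w : M.H 1),
      M.perm n σ * M.rows (fun _ : Fin n => w) = M.rows (fun _ : Fin n => w) * M.perm n σ)

/-- ROWT -/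
def StmRowT : Prop :=
  StmRows → ∀ (M : TensorPowers) (N : ℕ) (a : Fin (N + 1) → M.H 1),
    M.ptr N (M.rowPer a) = M.tr (a (Fin.last N)) • M.rowPer (fun i : Fin N => a i.castSucc) +
      ∑ u : Fin N, M.rowPer (Function.update (fun i : Fin N => a i.castSucc) u
        (a (Fin.last N) * a u.castSucc))

/-- ALGT -/
def StmAlgT : Prop :=
  StmRows → StmRowT → ∀ (M : TensorPowers) (g : M.H 1) (N : ℕ), M.sym g (N + 1) = 0 →
    ∃ c : Fin N → ℚ, g ^ (N + 1) = ∑ m : Fin N, c m • g ^ ((m : ℕ) + 1)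

/-- ADDS -/
def StmAddS : Prop :=
  ∀ (M : TensorPowers) (a b : M.H 1) (p q : ℕ), M.sym a p = 0 → M.sym b q = 0 →
    M.sym (a + b) (p + q) = 0

/-- ADDA -/
def StmAddA : Prop :=
  ∀ (M : TensorPowers) (a b : M.H 1) (p q : ℕ), M.alt a p = 0 → M.alt b q = 0 →
    M.alt (a + b) (p + q) = 0

end Pool.Agent.K3h46.NC
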